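import Mathlib
import Pool.Agent.V11322.EJ.Fin

/-!
# The even-intersection Johnson graphs on `2k` points are not determined by their spectrum

For every `k ≥ 5` the generalized Johnson graph on the `k`-subsets of a set of `2k` points, two
distinct subsets being adjacent when the size of their intersection is even, at least two and at
most `k - 1`, has a cospectral mate.
-/

namespace Pool.Agent.Results.MP_b101b2_co.CospectralMate

/-- The generalized Johnson graph `J_S(n,k)`: the vertices are the `k`-subsets of an `n`-set, and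
two distinct ones are adjacent when the size of their intersection belongs to `S`. -/
def johnson (S : Set ℕ) (n k : ℕ) : SimpleGraph {A : Finset (Fin n) // A.card = k} where
  Adj A B := A ≠ B ∧ (A.1 ∩ B.1).card ∈ S
  symm := ⟨fun A B h => ⟨h.1.symm, by rw [Finset.inter_comm]; exact h.2⟩⟩
  loopless := ⟨fun _ h => h.1 rfl⟩

/-- The even numbers from `2` to `k - 1`. -/
def evens (k : ℕ) : Set ℕ := {s | 2 ≤ s ∧ s ≤ k - 1 ∧ Even s}

open Classical in
/-- Cospectral graphs: the adjacency matrices have the same characteristic polynomial, so the same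
eigenvalues with multiplicities. -/
def Cospectral {V W : Type} [Fintype V] [DecidableEq V] [Fintype W] [DecidableEq W]
    (G : SimpleGraph V) (H : SimpleGraph W) : Prop :=
  (G.adjMatrix ℝ).charpoly = (H.adjMatrix ℝ).charpoly

/-- A graph on a finite set of vertices has a cospectral mate: a graph cospectral to it and not
isomorphic to it. -/
def HasMate {V : Type} [Fintype V] [DecidableEq V] (G : SimpleGraph V) : Prop :=
  ∃ (n : ℕ) (H : SimpleGraph (Fin n)), Cospectral H G ∧ IsEmpty (H ≃g G)

lemma adj_map {V : Type} [Fintype V] (G : SimpleGraph V) [DecidableRel G.Adj] :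
    G.adjMatrix ℝ = (G.adjMatrix ℚ).map (algebraMap ℚ ℝ) := by
  ext X Y
  rw [Matrix.map_apply, SimpleGraph.adjMatrix_apply, SimpleGraph.adjMatrix_apply]
  split_ifs <;> simp

lemma charpoly_comap {V W : Type} [Fintype V] [Fintype W] [DecidableEq V] [DecidableEq W]
    (e : W ≃ V) (G : SimpleGraph V) [DecidableRel G.Adj] [DecidableRel (G.comap e).Adj] :
    ((G.comap e).adjMatrix ℝ).charpoly = (G.adjMatrix ℝ).charpoly := by
  have h : (G.comap e).adjMatrix ℝ = (G.adjMatrix ℝ).submatrix e e := by
    ext X Y
    rw [Matrix.submatrix_apply, SimpleGraph.adjMatrix_apply, SimpleGraph.adjMatrix_apply]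
    exact if_congr SimpleGraph.comap_adj rfl rfl
  have h2 : (G.adjMatrix ℝ).submatrix e e = Matrix.reindex e.symm e.symm (G.adjMatrix ℝ) := rfl
  rw [h, h2, Matrix.charpoly_reindex]

open Classical in
/-- For every `k ≥ 5` the graph `J_{2,4,...}(2k,k)` has a cospectral mate. -/
theorem result (k : ℕ) (hk : 5 ≤ k) : HasMate (johnson (evens k) (2 * k) k) := by
  have hG : (johnson (evens k) (2 * k) k).adjMatrix ℚ = Pool.Agent.V11322.EJ.AA k := by
    ext X Y
    rw [SimpleGraph.adjMatrix_apply]
    unfold Pool.Agent.V11322.EJ.AA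
    rw [Matrix.of_apply]
    have hiff : (johnson (evens k) (2 * k) k).Adj X Y ↔
        (2 ≤ (X.1 ∩ Y.1).card ∧ (X.1 ∩ Y.1).card ≤ k - 1 ∧ Even (X.1 ∩ Y.1).card) := by
      constructor
      · intro h
        exact h.2
      · intro h
        refine ⟨?_, h⟩
        rintro rfl
        have h2 := h.2.1
        rw [Finset.inter_self, X.2] at h2
        omega
    exact if_congr hiff rfl rfl
  obtain ⟨G', h1, h2⟩ := Pool.Agent.V11322.EJ.mate hk _ hG
  let e := (Fintype.equivFin {A : Finset (Fin (2 * k)) // A.card = k}).symm
  refine ⟨_, G'.comap e, ?_, ⟨fun φ => ?_⟩⟩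
  · unfold Cospectral
    rw [charpoly_comap, adj_map G', adj_map (johnson (evens k) (2 * k) k),
      Matrix.charpoly_map, Matrix.charpoly_map, h1]
  · exact h2.false ((SimpleGraph.Iso.comap e G').symm.trans φ)

end Pool.Agent.Results.MP_b101b2_co.CospectralMate
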